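import Pool.Agent.H840.MX.Stm

/-!
# A smooth plane cubic form is irreducible
-/

set_option autoImplicit false

namespace Pool.Agent.H331.MX

open MvPolynomial Pool.Agent.T2H40.MI Pool.Agent.H840.MX

/-- the factors of a form are forms -/
theorem homog_of_dvd {F G : S} {n : ℕ} (hF : F.IsHomogeneous n) (hF0 : F ≠ 0) (h : G ∣ F) :
    G.IsHomogeneous G.totalDegree := by
  obtain ⟨K, rfl⟩ := h
  have hG0 : G ≠ 0 := left_ne_zero_of_mul hF0
  have hK0 : K ≠ 0 := right_ne_zero_of_mul hF0
  have hle : ∀ P : S, P ≠ 0 → (P : MvPowerSeries (Fin 3) ℂ).order ≤ P.totalDegree := by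
    intro P hP
    obtain ⟨d, hd⟩ := MvPolynomial.ne_zero_iff.1 hP
    have h1 : (P : MvPowerSeries (Fin 3) ℂ).order ≤ (d.degree : ℕ∞) :=
      MvPowerSeries.order_le (by simpa using hd)
    refine h1.trans ?_
    have h2 : d.degree ≤ P.totalDegree := by
      have := MvPolynomial.le_totalDegree (p := P) (s := d) (MvPolynomial.mem_support_iff.2 hd)
      simpa [Finsupp.degree_apply, Finsupp.sum] using this
    exact_mod_cast h2
  have hmul : ((G * K : S) : MvPowerSeries (Fin 3) ℂ).order =
      (G : MvPowerSeries (Fin 3) ℂ).order + (K : MvPowerSeries (Fin 3) ℂ).order := by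
    rw [MvPolynomial.coe_mul, MvPowerSeries.order_mul]
  have hFo : (n : ℕ∞) ≤ ((G * K : S) : MvPowerSeries (Fin 3) ℂ).order := by
    apply MvPowerSeries.nat_le_order
    intro d hd
    rw [MvPolynomial.coeff_coe]
    by_contra hne
    have := hF hne
    have h' : d.degree = n := by rw [← this, Finsupp.degree_eq_weight_one]; rfl
    omega
  have hT : (G * K).totalDegree = n := hF.totalDegree hF0
  rw [MvPolynomial.totalDegree_mul_of_isDomain hG0 hK0] at hT
  have hGo := hle G hG0
  have hKo := hle K hK0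
  rw [hmul] at hFo
  intro d hd
  have h1 : (G : MvPowerSeries (Fin 3) ℂ).order ≤ (d.degree : ℕ∞) :=
      MvPowerSeries.order_le (by simpa using hd)
  have h2 : d.degree ≤ G.totalDegree := by
      have := MvPolynomial.le_totalDegree (p := G) (s := d) (MvPolynomial.mem_support_iff.2 hd)
      simpa [Finsupp.degree_apply, Finsupp.sum] using this
  have h3 : (n : ℕ∞) ≤ (d.degree : ℕ∞) + (K.totalDegree : ℕ∞) := hFo.trans (add_le_add h1 hKo)
  have h4 : n ≤ d.degree + K.totalDegree := by exact_mod_cast h3
  have h5 : d.degree = G.totalDegree := by omega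
  rw [← h5, Finsupp.degree_eq_weight_one]
  rfl

theorem hom_one {A : S} (h : A.IsHomogeneous 1) : A = lin fun i => coeff (Finsupp.single i 1) A := by
  classical
  ext m
  by_cases hm : m.degree = 1
  · obtain ⟨i, rfl⟩ : ∃ i, m = Finsupp.single i 1 := by
      have h1 : m.degree = m 0 + m 1 + m 2 := by
        rw [Finsupp.degree_eq_sum, Fin.sum_univ_three]
      rw [h1] at hm
      rcases Nat.eq_zero_or_pos (m 0) with h0 | h0
      · rcases Nat.eq_zero_or_pos (m 1) with h2 | h2
        · refine ⟨2, ?_⟩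
          ext k
          fin_cases k <;> simp <;> omega
        · refine ⟨1, ?_⟩
          ext k
          fin_cases k <;> simp <;> omega
      · refine ⟨0, ?_⟩
        ext k
        fin_cases k <;> simp <;> omega
    rw [coeff_lin]
  · rw [h.coeff_eq_zero hm, (lin_hom _).coeff_eq_zero hm]

/-- restriction to a line -/
noncomputable def rs (u w : Fin 3 → ℂ) (B : S) : Polynomial ℂ :=
  aeval (fun i => Polynomial.C (u i) + Polynomial.X * Polynomial.C (w i)) B

theorem eval_rs (u w : Fin 3 → ℂ) (B : S) (t : ℂ) :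
    (rs u w B).eval t = eval (u + t • w) B := by
  have h : (Polynomial.evalRingHom t).comp (algebraMap ℂ (Polynomial ℂ)) = RingHom.id ℂ := by
    ext
    simp
  unfold rs
  rw [aeval_def, ← Polynomial.coe_evalRingHom, hom_eval₂, h, eval₂_id]
  congr 2
  funext i
  simp only [Polynomial.coe_evalRingHom, Function.comp_apply, Polynomial.eval_add,
    Polynomial.eval_C, Polynomial.eval_mul, Polynomial.eval_X, Pi.add_apply, Pi.smul_apply,
    smul_eq_mul]

/-- a form of positive degree has a zero on every line -/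
theorem exists_zero {B : S} {d : ℕ} (hd : 0 < d) (hB : B.IsHomogeneous d) (u w : Fin 3 → ℂ) :
    ∃ s t : ℂ, (s ≠ 0 ∨ t ≠ 0) ∧ eval (s • u + t • w) B = 0 := by
  by_cases hdeg : (rs u w B).degree = 0
  · obtain ⟨c, hc⟩ : ∃ c, rs u w B = Polynomial.C c :=
      ⟨_, Polynomial.eq_C_of_degree_le_zero hdeg.le⟩
    refine ⟨0, 1, Or.inr one_ne_zero, ?_⟩
    rw [zero_smul, zero_add, one_smul]
    have key : rs w u B = Polynomial.C c * Polynomial.X ^ d := by
      refine Polynomial.eq_of_infinite_eval_eq _ _ ?_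
      refine Set.Infinite.mono ?_ (Set.finite_singleton (0 : ℂ)).infinite_compl
      intro e he
      have he' : e ≠ 0 := he
      rw [Set.mem_ofPred_eq, eval_rs, Polynomial.eval_mul, Polynomial.eval_C, Polynomial.eval_pow,
        Polynomial.eval_X]
      have e1 : w + e • u = e • (u + e⁻¹ • w) := by
        rw [smul_add, smul_smul, mul_inv_cancel₀ he', one_smul, add_comm]
      rw [e1, eval_smul_hom hB, ← eval_rs, hc, Polynomial.eval_C, mul_comm]
    have h0 := eval_rs w u B 0
    rw [key, zero_smul, add_zero] at h0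
    rw [← h0]
    simp [hd.ne']
  · obtain ⟨t, ht⟩ := Complex.isAlgClosed.exists_root (rs u w B) hdeg
    refine ⟨1, t, Or.inl one_ne_zero, ?_⟩
    rw [one_smul, ← eval_rs]
    exact ht

/-- a linear form and a form of positive degree have a common zero -/
theorem common_zero (r : Fin 3 → ℂ) {B : S} {d : ℕ} (hd : 0 < d) (hB : B.IsHomogeneous d) :
    ∃ q : Fin 3 → ℂ, q ≠ 0 ∧ eval q (lin r) = 0 ∧ eval q B = 0 := by
  have main : ∀ i j k : Fin 3, j ≠ i → k ≠ i → j ≠ k → r i ≠ 0 →
      ∃ q : Fin 3 → ℂ, q ≠ 0 ∧ eval q (lin r) = 0 ∧ eval q B = 0 := by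
    intro i j k hji hki hjk hr
    obtain ⟨s, t, hst, h0⟩ := exists_zero hd hB
      (Pi.single j (r i) - Pi.single i (r j)) (Pi.single k (r i) - Pi.single i (r k))
    refine ⟨_, ?_, ?_, h0⟩
    · intro hq
      rcases hst with hs | ht
      · have := congrFun hq j
        simp [hji, hjk, hr, hs] at this
      · have := congrFun hq k
        simp [hki, hjk.symm, hr, ht] at this
    · rw [eval_lin, dotProduct_add, dotProduct_smul, dotProduct_smul, dotProduct_sub,
        dotProduct_sub, dotProduct_single, dotProduct_single, dotProduct_single, dotProduct_single]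
      simp only [smul_eq_mul]
      ring
  by_cases h : r = 0
  · obtain ⟨s, t, hst, h0⟩ := exists_zero hd hB (Pi.single 0 1) (Pi.single 1 1)
    refine ⟨_, ?_, ?_, h0⟩
    · intro hq
      rcases hst with hs | ht
      · have := congrFun hq 0
        simp [hs] at this
      · have := congrFun hq 1
        simp [ht] at this
    · rw [eval_lin, h, zero_dotProduct]
  · obtain ⟨i, hi⟩ := Function.ne_iff.1 h
    fin_cases i
    · exact main 0 1 2 (by decide) (by decide) (by decide) hi
    · exact main 1 0 2 (by decide) (by decide) (by decide) hi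
    · exact main 2 0 1 (by decide) (by decide) (by decide) hi

theorem deg_pos {A : S} (hA : ¬ IsUnit A) (hA0 : A ≠ 0) : 0 < A.totalDegree := by
  rw [Nat.pos_iff_ne_zero]
  intro h
  rw [totalDegree_eq_zero_iff_eq_C] at h
  apply hA
  rw [h]
  have hc : coeff 0 A ≠ 0 := by
    intro h1
    rw [h1, C_0] at h
    exact hA0 h
  exact (IsUnit.mk0 _ hc).map C

theorem no_factor {F A B : S} (hF : SmoothCubic F) (hAB : F = A * B) (hA : A.IsHomogeneous 1)
    {d : ℕ} (hd : 0 < d) (hB : B.IsHomogeneous d) : False := by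
  obtain ⟨q, hq, h1, h2⟩ := common_zero (fun i => coeff (Finsupp.single i 1) A) hd hB
  rw [← hom_one hA] at h1
  obtain ⟨i, hi⟩ := hF.smooth q hq (by rw [hAB, map_mul, h1, zero_mul])
  apply hi
  rw [hAB, Derivation.leibniz, map_add, smul_eq_mul, smul_eq_mul, map_mul, map_mul, h1, h2,
    zero_mul, zero_mul, add_zero]

theorem irr : S_IRR := by
  intro F hF
  have hF0 : F ≠ 0 := by
    rintro rfl
    obtain ⟨i, hi⟩ := hF.smooth (Pi.single 0 1) (by
      intro h
      have := congrFun h 0
      simp at this) (map_zero _)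
    simp at hi
  refine ⟨?_, ?_⟩
  · intro hu
    have h1 := hu.map (eval (0 : Fin 3 → ℂ))
    have h2 : eval (0 : Fin 3 → ℂ) F = 0 := by
      have := eval_smul_hom hF.hom 0 (0 : Fin 3 → ℂ)
      rw [zero_smul] at this
      rw [this]
      simp
    rw [h2] at h1
    exact not_isUnit_zero h1
  · intro A B hAB
    by_contra hcon
    rw [not_or] at hcon
    obtain ⟨hA, hB⟩ := hcon
    have hA0 : A ≠ 0 := by
      rintro rfl
      exact hF0 (by rw [hAB, zero_mul])
    have hB0 : B ≠ 0 := by
      rintro rfl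
      exact hF0 (by rw [hAB, mul_zero])
    have hAh := homog_of_dvd hF.hom hF0 ⟨B, hAB⟩
    have hBh := homog_of_dvd hF.hom hF0 (G := B) ⟨A, by rw [hAB, mul_comm]⟩
    have h3 : A.totalDegree + B.totalDegree = 3 := by
      rw [← totalDegree_mul_of_isDomain hA0 hB0, ← hAB]
      exact hF.hom.totalDegree hF0
    have h4 := deg_pos hA hA0
    have h5 := deg_pos hB hB0
    rcases (by omega : A.totalDegree = 1 ∨ B.totalDegree = 1) with h | h
    · rw [h] at hAh
      exact no_factor hF hAB hAh h5 hBh
    · rw [h] at hBh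
      exact no_factor hF (hAB.trans (mul_comm _ _)) hBh h4 hAh

end Pool.Agent.H331.MX
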